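import Pool.Agent.Y277.NN.XF
import Pool.Agent.Y277.NN.MD
import Pool.Agent.Y277.NN.DC

/-!
Over the real and over the complex scalars there is a closed subspace `Y` of the space of null
sequences, with the approximation property, such that for every `p` with `2 < p < ∞` there is a
closed subspace `X` of the space of `p`-summable sequences for which the nuclear operators from
`X` to `Y` attaining their nuclear norm are nowhere dense for the nuclear norm. Moreover operators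
of finite rank and of nuclear norm one can have distance arbitrarily close to one half from the
set of the operators attaining their nuclear norm.

The definitions of nuclear operators, of the nuclear norm and of its attainment are in
`Pool.Agent.Y277.NN.NA`.
-/

set_option autoImplicit false
open Filter Topology
open scoped ENNReal

namespace Pool.Agent.Results.MP_91e127_an.NowhereDenseEllP

open Pool.Agent.Y277.NN

open Pool.Agent.Helper362.ApNoBap (Data)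

section
variable (𝕜 : Type) [RCLike 𝕜]
variable (X Y : Type) [NormedAddCommGroup X] [NormedSpace 𝕜 X]
variable [NormedAddCommGroup Y] [NormedSpace 𝕜 Y]

/-- The approximation property: the identity is approximated by operators of finite rank,
uniformly on compact sets. -/
def HasAP : Prop :=
  ∀ K : Set Y, IsCompact K → ∀ ε : ℝ, 0 < ε → ∃ P : Y →L[𝕜] Y,
    FiniteDimensional 𝕜 (LinearMap.range (P : Y →ₗ[𝕜] Y)) ∧ ∀ x ∈ K, ‖P x - x‖ ≤ ε

variable {𝕜 X Y} in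
/-- The operator `T` is nuclear of finite rank. -/
def FiniteRank (T : X →L[𝕜] Y) : Prop :=
  IsNuclear T ∧ FiniteDimensional 𝕜 (LinearMap.range (T : X →ₗ[𝕜] Y))

variable {𝕜 X Y} in
/-- Every operator attaining its nuclear norm has distance at least `δ` from `T`, for the nuclear
norm. -/
def Far (T : X →L[𝕜] Y) (δ : ℝ) : Prop :=
  ∀ U : X →L[𝕜] Y, AttainsNuclearNorm U → δ ≤ nuclearNorm (T - U)

/-- The operators attaining their nuclear norm are nowhere dense in the space of the nuclear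
operators: near every nuclear `S` there is a nuclear `T`, even of finite rank, around which there
is a ball without operators attaining their nuclear norm. -/
def NowhereDenseNA : Prop :=
  ∀ S : X →L[𝕜] Y, IsNuclear S → ∀ ε : ℝ, 0 < ε →
    ∃ T : X →L[𝕜] Y, FiniteRank T ∧ nuclearNorm (T - S) < ε ∧ ∃ δ : ℝ, 0 < δ ∧ Far T δ

/-- For every `c < 1 / 2` there is an operator of finite rank and of nuclear norm one with
distance at least `c` from the operators attaining their nuclear norm. -/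
def FarUpToHalf : Prop :=
  ∀ c : ℝ, c < 1 / 2 → ∃ T : X →L[𝕜] Y, FiniteRank T ∧ nuclearNorm T = 1 ∧ Far T c

end

section
variable (𝕜 : Type) [RCLike 𝕜] (X : Type) [NormedAddCommGroup X] [NormedSpace 𝕜 X]

/-- The Banach space `X` is isometric to a closed subspace of the space of null sequences. -/
def InC0 : Prop :=
  CompleteSpace X ∧ ∃ J : X →ₗ[𝕜] (ℕ → 𝕜), ∀ x : X, Tendsto (J x) atTop (𝓝 0) ∧
    IsLUB (Set.range fun n => ‖J x n‖) ‖x‖

/-- The Banach space `X` is isometric to a closed subspace of the space of `p`-summable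
sequences. -/
def InEllP (p : ℝ) : Prop :=
  CompleteSpace X ∧ ∃ J : X →ₗ[𝕜] (ℕ → 𝕜), ∀ x : X, HasSum (fun n => ‖J x n‖ ^ p) (‖x‖ ^ p)

end

lemma inC0 {𝕜 : Type} [RCLike 𝕜] (Y : Submodule 𝕜 (lp (fun _ : ℕ => 𝕜) ∞))
    (hY : IsClosed (Y : Set (lp (fun _ : ℕ => 𝕜) ∞)))
    (h0 : ∀ y ∈ Y, Tendsto (fun n : ℕ => y n) atTop (𝓝 0)) : InC0 𝕜 Y := by
  refine ⟨hY.completeSpace_coe, ⟨⟨fun y n => (y : lp (fun _ : ℕ => 𝕜) ∞) n, fun x y => rfl⟩,
    fun c x => rfl⟩, fun y => ⟨h0 y y.2, ?_⟩⟩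
  exact lp.isLUB_norm (y : lp (fun _ : ℕ => 𝕜) ∞)

lemma inEllP {𝕜 : Type} [RCLike 𝕜] (p : ℝ≥0∞) [Fact (1 ≤ p)]
    (hp : 0 < p.toReal) (X : Submodule 𝕜 (lp (fun _ : ℕ => 𝕜) p))
    (hX : IsClosed (X : Set (lp (fun _ : ℕ => 𝕜) p))) : InEllP 𝕜 X p.toReal := by
  refine ⟨hX.completeSpace_coe, ⟨⟨fun y n => (y : lp (fun _ : ℕ => 𝕜) p) n, fun x y => rfl⟩,
    fun c x => rfl⟩, fun y => ?_⟩
  exact lp.hasSum_norm hp (y : lp (fun _ : ℕ => 𝕜) p)

lemma fin {𝕜 : Type} [RCLike 𝕜] {D : Data} {ω : ℕ → ℝ} (Y : Submodule 𝕜 (lp (fun _ : ℕ => 𝕜) ∞))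
    (yd : YD 𝕜 D Y) (p : ℝ≥0∞) [Fact (1 ≤ p)] (X : Submodule 𝕜 (lp (fun _ : ℕ => 𝕜) p))
    (xd : XD 𝕜 D ω X Y yd) (hω : ∀ g, 0 < ω g) (hA : ∀ g h, |D.A g h| ≤ ω g * D.r g)
    (hM : ∀ l : ℕ, ∃ M : ℕ, (∀ g, g < M → D.w l g = 1) ∧
      ((l + 1 : ℝ) / D.eps l + 1) * D.tail M ≤ 1 / 4)
    (hE : ∀ l : ℕ, (l + 1 : ℝ) * D.eps l * ∑' g, D.r g ≤ 1 / 4) :
    NowhereDenseNA 𝕜 X Y ∧ FarUpToHalf 𝕜 X Y := by
  refine ⟨fun S hS ε hε => ?_, fun c hc => ?_⟩
  · obtain ⟨T, h1, h2, h3, h4⟩ := nowhere xd hω hA hM hE S hS ε hε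
    exact ⟨T, ⟨h1, h2⟩, h3, h4⟩
  · obtain ⟨T, h1, h2, h3, h4⟩ := ratio xd hω hA hM hE c hc
    exact ⟨T, ⟨h1, h2⟩, h3, h4⟩

lemma main (𝕜 : Type) [RCLike 𝕜] :
    ∃ Y : Submodule 𝕜 (lp (fun _ : ℕ => 𝕜) ∞), InC0 𝕜 Y ∧ HasAP 𝕜 Y ∧
      ∀ p : ℝ, 2 < p → ∃ (q : ℝ≥0∞) (_ : Fact (1 ≤ q)) (X : Submodule 𝕜 (lp (fun _ : ℕ => 𝕜) q)),
        InEllP 𝕜 X p ∧ NowhereDenseNA 𝕜 X Y ∧ FarUpToHalf 𝕜 X Y := by
  obtain ⟨D, ω, hω, hA, hs, hM, hE⟩ := exists_data
  refine ⟨S 𝕜 D, inC0 _ (S_closed 𝕜 D) (fun y hy => ?_), AP 𝕜 D, fun p hp => ?_⟩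
  · have := S_c0 (𝕜 := 𝕜) D y hy
    rwa [Nat.cofinite_eq_atTop] at this
  · have hq : (ENNReal.ofReal p).toReal = p := ENNReal.toReal_ofReal (by linarith)
    have hq2 : 2 < ENNReal.ofReal p := by
      have : (2 : ℝ≥0∞) = ENNReal.ofReal 2 := by simp
      rw [this]
      exact (ENNReal.ofReal_lt_ofReal_iff (by linarith)).mpr hp
    have hfact : Fact (1 ≤ ENNReal.ofReal p) := ⟨le_trans (by norm_num) hq2.le⟩
    have hp2 : 2 < (ENNReal.ofReal p).toReal := by rw [hq]; exact hp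
    have h1 : InEllP 𝕜 (XX 𝕜 (ENNReal.ofReal p) D ω) (ENNReal.ofReal p).toReal :=
      inEllP (ENNReal.ofReal p) (by linarith) _ (XX_closed 𝕜 (ENNReal.ofReal p) D ω)
    rw [hq] at h1
    exact ⟨ENNReal.ofReal p, hfact, XX 𝕜 (ENNReal.ofReal p) D ω, h1,
      fin (S 𝕜 D) (ydS 𝕜 D) (ENNReal.ofReal p) (XX 𝕜 (ENNReal.ofReal p) D ω)
        (xdX D ω hq2.le ENNReal.ofReal_ne_top hω (hs _ hp2) hA) hω hA hM hE⟩

/-- The nuclear operators attaining their nuclear norm can be nowhere dense, for a closed subspace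
of `ℓ^p` as domain (any `2 < p < ∞`) and a closed subspace of `c_0` with the approximation
property as range, over both fields of scalars. -/
theorem result (𝕜 : Type) [RCLike 𝕜] :
    ∃ (Y : Type) (_ : NormedAddCommGroup Y) (_ : NormedSpace 𝕜 Y), InC0 𝕜 Y ∧ HasAP 𝕜 Y ∧
      ∀ p : ℝ, 2 < p → ∃ (X : Type) (_ : NormedAddCommGroup X) (_ : NormedSpace 𝕜 X),
        InEllP 𝕜 X p ∧ NowhereDenseNA 𝕜 X Y ∧ FarUpToHalf 𝕜 X Y := by
  obtain ⟨Y, h1, h2, h3⟩ := main 𝕜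
  refine ⟨Y, inferInstance, inferInstance, h1, h2, fun p hp => ?_⟩
  obtain ⟨q, hq, X, h4, h5, h6⟩ := h3 p hp
  exact ⟨X, inferInstance, inferInstance, h4, h5, h6⟩

end Pool.Agent.Results.MP_91e127_an.NowhereDenseEllP
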